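import Pool.Agent.Work.MP_91103f_fd.Interface

namespace Pool.TriFold.helper33

open Pool.Agent.Work.MP_91103f_co Pool.TriLev

open Classical

theorem T6_adj_e6 {p q : ℤ × ℤ} (h : T6.Adj p q) : ∃ d : ZMod 6, q = p + e6 d := by
  rw [SimpleGraph.fromRel_adj] at h
  obtain ⟨-, h⟩ := h
  have key : ∀ v : ℤ × ℤ, v ∈ ({(1, 0), (0, 1), (-1, 1)} : Set (ℤ × ℤ)) →
      ∃ d : ZMod 6, v = e6 d := by
    rintro v (rfl | rfl | rfl)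
    · exact ⟨0, by simp [e6]⟩
    · exact ⟨1, by rw [e6]; rfl⟩
    · exact ⟨2, by rw [e6]; rfl⟩
  have key2 : ∀ v : ℤ × ℤ, v ∈ ({(1, 0), (0, 1), (-1, 1)} : Set (ℤ × ℤ)) →
      ∃ d : ZMod 6, -v = e6 d := by
    rintro v (rfl | rfl | rfl)
    · exact ⟨3, by rw [e6]; rfl⟩
    · exact ⟨4, by rw [e6]; rfl⟩
    · exact ⟨5, by rw [e6]; rfl⟩
  rcases h with h | h
  · obtain ⟨d, hd⟩ := key _ h
    exact ⟨d, by rw [← hd]; ext <;> simp⟩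
  · obtain ⟨d, hd⟩ := key2 _ h
    refine ⟨d, ?_⟩
    rw [← hd]
    ext <;> simp

theorem stmt_FOLD (h4 : Stmt_FR4) (h5 : Stmt_FR5) (h6 : Stmt_FR6) (h7 : Stmt_FR7) :
    Stmt_FOLD := by
  intro V G F N hT hN v n
  obtain ⟨D, hD, hc⟩ := h4 hT hN
  obtain ⟨π, hπ0, hπ⟩ := h5 hT v D hD hc
  have := h7 (G := G) (fun x => (hT.deg x).1) π (by
    intro x p hp
    obtain ⟨d, rfl⟩ := T6_adj_e6 hp
    obtain ⟨y, hy, hd⟩ := h6 hT hN x (D x) (hD x) d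
    exact ⟨y, hy, by rw [hπ x y hy, hd]⟩) n v
  rwa [hπ0] at this

end Pool.TriFold.helper33
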