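import Pool.Agent.Work.MP_91103f_fd_helper33.FR2

namespace Pool.TriFold.helper33

open Pool.Agent.Work.MP_91103f_co Pool.TriLev

open Classical

theorem stmt_FR1 (hFR0 : Stmt_FR0) : Stmt_FR1 := by
  intro V G F N hT hN x y D hxy hx
  obtain ⟨w, hw⟩ := hT.exists_flag_of_adj hxy
  have hs := hx.1 y w hw
  obtain ⟨D', hy, d1, d2⟩ := hFR0 hT hN y x w (D y + 3) (-(D w - D y)) hw.swap (by
    rcases hs with h | h
    · right; rw [h]
    · left; rw [h]; decide)
  refine ⟨D', hy, d1, ?_⟩
  intro v hv
  by_cases hvw : v = w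
  · subst hvw
    rw [d1, d2]
    ring
  · have f1 := hx.2 w y v hw.swap' hv (Ne.symm hvw)
    have f2 := hy.2 w x v hw.swap.swap' hv.swap (Ne.symm hvw)
    have g1 : ({y, x, v} : Finset V) = {x, y, v} := by
      ext u; simp only [Finset.mem_insert, Finset.mem_singleton]; tauto
    have g2 : ({y, w, x} : Finset V) = {x, w, y} := by
      ext u; simp only [Finset.mem_insert, Finset.mem_singleton]; tauto
    rw [g1, g2] at f2
    have k2 : D' x - D' w = -(D y - D w) := by rw [d1, d2]; ring
    rw [k2] at f2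
    set σ := sg N {x, y, v}
    have hσ : σ * σ = 1 := sg_sq N _
    have m1 : D v - D y = (D y - D w) * sg N {x, w, y} * σ := by
      calc D v - D y = (D v - D y) * (σ * σ) := by rw [hσ, mul_one]
        _ = ((D v - D y) * σ) * σ := by ring
        _ = _ := by rw [f1]
    have m2 : D' v - D' x = -(D y - D w) * sg N {x, w, y} * σ := by
      calc D' v - D' x = (D' v - D' x) * (σ * σ) := by rw [hσ, mul_one]
        _ = ((D' v - D' x) * σ) * σ := by ring
        _ = _ := by rw [f2]
    rw [m1, m2]
    ring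

end Pool.TriFold.helper33
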