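import Pool.Agent.Work.MP_91103f_fd.Interface

namespace Pool.TriFold.helper33

open Pool.Agent.Work.MP_91103f_co Pool.TriLev

open Classical

theorem e6_add_three (d : ZMod 6) : e6 (d + 3) = -e6 d := by
  fin_cases d <;> (unfold e6; rfl)

theorem e6_tri (a b : ZMod 6) (h : b - a = 1 ∨ b - a = -1) :
    e6 b = e6 a + e6 (a + 3 - (b - a)) := by
  have hb : b = a + 1 ∨ b = a - 1 := by
    rcases h with h | h
    · left; rw [← h]; ring
    · right; rw [sub_eq_iff_eq_add] at h; rw [h]; ring
  rcases hb with rfl | rfl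
  · rw [show a + 3 - (a + 1 - a) = a + 2 by ring]
    fin_cases a <;> (unfold e6; rfl)
  · rw [show a + 3 - (a - 1 - a) = a + 4 by ring]
    fin_cases a <;> (unfold e6; rfl)

/-- positions by recursion on the level -/
noncomputable def pos {V : Type} (P : V → V) (D : V → V → ZMod 6) : ℕ → V → ℤ × ℤ
  | 0, _ => (0, 0)
  | n + 1, x => pos P D n (P x) + e6 (D (P x) x)

theorem exists_par {V : Type} {G : SimpleGraph V} (hc : G.Connected) {r x : V} (hx : x ≠ r) :
    ∃ p, Ch G r p x := by
  obtain ⟨p, hp⟩ := hc.exists_walk_length_eq_dist x r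
  cases p with
  | nil => exact absurd rfl hx
  | @cons _ y _ hadj q =>
    rw [SimpleGraph.Walk.length_cons] at hp
    have h1 : G.dist y r ≤ q.length := SimpleGraph.dist_le q
    have h2 : G.dist x r ≤ G.dist x y + G.dist y r := hc.dist_triangle
    have h3 : G.dist x y = 1 := SimpleGraph.dist_eq_one_iff_adj.2 hadj
    have h4 : G.dist y r = G.dist r y := SimpleGraph.dist_comm
    have h5 : G.dist x r = G.dist r x := SimpleGraph.dist_comm
    exact ⟨y, hadj.symm, by omega⟩

theorem stmt_FR5 (hIND : Stmt_IND) : Stmt_FR5 := by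
  intro V G F N hT r D hD hc
  have hex : ∀ x : V, ∃ p, x ≠ r → Ch G r p x := by
    intro x
    by_cases hx : x = r
    · exact ⟨x, fun h => absurd hx h⟩
    · obtain ⟨p, hp⟩ := exists_par hT.conn hx
      exact ⟨p, fun _ => hp⟩
  choose P hP using hex
  set π : V → ℤ × ℤ := fun x => pos P D (G.dist r x) x with hπ
  have hπP : ∀ x, x ≠ r → π x = π (P x) + e6 (D (P x) x) := by
    intro x hx
    simp only [hπ]
    rw [(hP x hx).2]
    rfl
  refine ⟨π, ?_, ?_⟩
  · simp only [hπ]
    rw [SimpleGraph.dist_self]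
    rfl
  · apply hIND hT r (fun x y => π y = π x + e6 (D x y))
    · intro x y hxy h
      have h1 := (hc x y hxy).1
      rw [h1, e6_add_three, h]
      ring
    · intro w x y hT3 h1 h2
      have h3 := (hc w x (hT.adj hT3)).1
      have h4 := (hc w x (hT.adj hT3)).2 y hT3
      have h5 := (hD w).1 x y hT3
      have h6 : D x y = D w x + 3 - (D w y - D w x) := by
        rw [sub_eq_iff_eq_add] at h4
        rw [h4, h3]
        ring
      rw [h6, h2, h1, e6_tri _ _ h5]
      ring
    · intro x hx
      exact ⟨P x, hP x hx, hπP x hx⟩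

end Pool.TriFold.helper33
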