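import Pool.Agent.Work.MP_91103f_fd.Interface

namespace Pool.TriFold.helper33

open Pool.Agent.Work.MP_91103f_co Pool.TriLev

open Classical

theorem stmt_IND (hLV : Stmt_LV) (hLH : Stmt_LH) : Stmt_IND := by
  intro V G F hT r R hsym htri hpar
  have hc := hT.conn
  have hlev : ∀ {a b : V}, G.Adj a b → G.dist r a ≤ G.dist r b + 1 := by
    intro a b h
    have h1 : G.dist r a ≤ G.dist r b + G.dist b a := hc.dist_triangle
    have h2 : G.dist b a = 1 := SimpleGraph.dist_eq_one_iff_adj.2 h.symm
    omega
  have main : ∀ n : ℕ, (∀ q x, Ch G r q x → G.dist r x = n → R q x) ∧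
      (∀ x y, G.Adj x y → G.dist r x = n → G.dist r y = n → R x y) := by
    intro n
    induction n with
    | zero =>
      refine ⟨?_, ?_⟩
      · intro q x h h0
        have := h.2
        omega
      · intro x y h h0 h1
        have e1 := hc.dist_eq_zero_iff.1 h0
        have e2 := hc.dist_eq_zero_iff.1 h1
        exact absurd (e1.symm.trans e2) h.ne
    | succ n ih =>
      have hB : ∀ q x, Ch G r q x → G.dist r x = n + 1 → R q x := by
        intro q x h h0
        have hx : x ≠ r := by
          rintro rfl
          rw [SimpleGraph.dist_self] at h0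
          omega
        obtain ⟨p, hp, hR⟩ := hpar x hx
        by_cases hpq : p = q
        · rw [← hpq]
          exact hR
        · have h1 : T3 F x p q := hLV hT r x p q hp h hpq
          have h2 : G.Adj p q := hT.adj h1.swap.swap'
          have h3 := hp.2
          have h4 := h.2
          have h5 : R p q := ih.2 p q h2 (by omega) (by omega)
          exact htri p q x h1.swap.swap' h5 hR
      refine ⟨hB, ?_⟩
      intro x y h h0 h1
      obtain ⟨w, h2, h3, h4⟩ := hLH hT r x y h (by omega)
      exact htri w x y h4.swap'.swap (hB w x h2 h0) (hB w y h3 h1)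
  intro x y h
  have h1 := hlev h
  have h2 := hlev h.symm
  rcases lt_trichotomy (G.dist r x) (G.dist r y) with h3 | h3 | h3
  · exact (main _).1 x y ⟨h, by omega⟩ rfl
  · exact (main _).2 x y h rfl h3.symm
  · exact hsym y x h.symm ((main _).1 y x ⟨h.symm, by omega⟩ rfl)

end Pool.TriFold.helper33
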