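import Pool.Agent.Work.MP_91103f_lv_helper33.LVLH
import Pool.Agent.Work.MP_91103f_fd_helper33.FOLD
import Pool.Agent.Work.MP_91103f_fd_helper33.FR5
import Pool.Agent.Work.MP_91103f_fd_helper33.FR1
import Pool.Agent.Work.MP_91103f_fd_helper33.IND
import Pool.Agent.Work.MP_91103f_fd_helper22.FR6
import Pool.Agent.Work.MP_91103f_fd_helper51.FR4
import Pool.Agent.Work.MP_91103f_fd_helper81.FR0
import Pool.Agent.Work.MP_91103f_fd_helper81.FR7

/-!
# Assembly (folded developing maps)
-/

namespace Pool.TriFold.helper33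

open Pool.Agent.Work.MP_91103f_co Pool.TriLev

theorem all_IND : Stmt_IND :=
  stmt_IND Pool.TriLev.helper33.all_LV Pool.TriLev.helper33.all_LH

theorem all_FOLD : Stmt_FOLD :=
  stmt_FOLD
    (helper51.stmt_FR4 helper81.stmt_FR0 (stmt_FR1 helper81.stmt_FR0) stmt_FR2 all_IND)
    (stmt_FR5 all_IND) helper22.stmt_FR6 helper81.stmt_FR7

end Pool.TriFold.helper33
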