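import Pool.Agent.Work.MP_91103f_fd.Interface

namespace Pool.TriFold.helper33

open Pool.Agent.Work.MP_91103f_co Pool.TriLev

open Classical

theorem sg_sq {V : Type} (N : Set (Finset V)) (f : Finset V) : sg N f * sg N f = 1 := by
  unfold sg
  split_ifs <;> decide

theorem stmt_FR2 : Stmt_FR2 := by
  intro V G F N hT w x y Dw Dx Dy h3 hw hx hy hwx hwy
  have hs := hw.1 x y h3
  have a1 := hwx.1
  have a2 := hwx.2 y h3
  have b1 := hwy.1
  have b2 := hwy.2 x h3.swap'
  set s : ZMod 6 := Dw y - Dw x with hsdef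
  have e1 : Dx y = Dw x + 3 - s := by
    rw [sub_eq_iff_eq_add] at a2
    rw [a2, a1]
    ring
  have e0 : Dw y = Dw x + s := by rw [hsdef]; ring
  have e2 : Dy x = Dw x + 3 + 2 * s := by
    rw [sub_eq_iff_eq_add] at b2
    rw [b2, b1, e0]
    ring
  have hs3 : 3 * s = 3 := by
    rcases hs with h | h
    · rw [h]; decide
    · rw [h]; decide
  refine ⟨?_, ?_⟩
  · have : Dy x = Dx y + 3 * s := by rw [e1, e2]; ring
    rw [this, hs3]
  · intro v hv
    by_cases hvw : v = w
    · subst hvw
      rw [b1, e2, a1, e1, e0]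
      ring
    · have f1 := hx.2 w y v h3.swap hv (Ne.symm hvw)
      have f2 := hy.2 w x v h3.swap'.swap hv.swap (Ne.symm hvw)
      have g1 : ({y, x, v} : Finset V) = {x, y, v} := by
        ext u; simp only [Finset.mem_insert, Finset.mem_singleton]; tauto
      have g2 : ({y, w, x} : Finset V) = {x, w, y} := by
        ext u; simp only [Finset.mem_insert, Finset.mem_singleton]; tauto
      rw [g1, g2] at f2
      have k1 : Dx y - Dx w = -s := by rw [e1, a1]; ring
      have k2 : Dy x - Dy w = s := by rw [e2, b1, e0]; ring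
      rw [k1] at f1
      rw [k2] at f2
      set σ := sg N {x, y, v}
      have hσ : σ * σ = 1 := sg_sq N _
      have m1 : Dx v - Dx y = -(s * sg N {x, w, y} * σ) := by
        calc Dx v - Dx y = (Dx v - Dx y) * (σ * σ) := by rw [hσ, mul_one]
          _ = ((Dx v - Dx y) * σ) * σ := by ring
          _ = _ := by rw [f1]; ring
      have m2 : Dy v - Dy x = s * sg N {x, w, y} * σ := by
        calc Dy v - Dy x = (Dy v - Dy x) * (σ * σ) := by rw [hσ, mul_one]
          _ = ((Dy v - Dy x) * σ) * σ := by ring
          _ = _ := by rw [f2]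
      rw [m1, m2]
      ring

end Pool.TriFold.helper33
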